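import Pool.Agent.Helper33.NS4
import Pool.Agent.W497.CC.Sum

/-!
# The Singer-Hopf inequality for ALL nonpositively curved cubical manifolds, up to the bad cubes

Let `P` be the poset of the faces of a finite cubical complex of dimension `2 m + 2` all of whose vertex
links are flag real homology spheres, for example of a closed nonpositively curved cubical manifold; it
is then aspherical.  The link of the vertex `v` is the flag complex of the graph `G v`.  For `i ≥ m + 2`
let `B v i` be a set of vertices of the link of `v` (that is, of edges of the manifold starting at `v`)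
which contains all the vertices whose links in the link of `v` are not in the class `AQ (2 i - 3)` of the
starting library.  There is no condition on the sets `B v i` themselves.

The number `badEven (G v) (B v) m` is the sum of `f_i / 2^i` over `i = m + 2, m + 4, ..., ≤ 2 m + 2`, where
`f_i` is the number of the `i`-cubes at `v` all of whose edges at `v` are in `B v i`.  As an `i`-cube has
`2^i` vertices, the sum of these numbers over all vertices `v` is at most the number of the cubes of the
dimensions `m + 2, m + 4, ...` which are bad at some vertex.
-/

set_option autoImplicit false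

namespace Pool.Agent.Results.MP_9d0d86_gt.CubicalBadVertices

open Pool.Agent.W497.FS Pool.Agent.W497.CC Pool.Agent.TH652.Above Pool.Agent.W907.SG
open Pool.Agent.Helper33.NSF

open Classical in
/-- the flag complex of `G`: the set of all cliques -/
noncomputable def flagComplex {n : ℕ} (G : SimpleGraph (Fin n)) : Finset (Finset (Fin n)) :=
  Finset.univ.filter fun T : Finset (Fin n) => G.IsClique (T : Set (Fin n))

theorem omega_eq {n : ℕ} (G : SimpleGraph (Fin n)) : omega (flagComplex G) = chiW G := by
  classical
  unfold omega chiW
  symm
  refine (Finset.sum_subset (Finset.subset_univ (flagComplex G))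
    (fun T _ hT => if_neg (fun h => hT (by simp [flagComplex, h])))).symm.trans ?_
  refine Finset.sum_congr rfl fun T hT => ?_
  have h : G.IsClique (T : Set (Fin n)) := by simpa [flagComplex] using hT
  rw [if_pos h, div_pow]

open Classical in
/-- `(-1)^{m+1} χ(P) ≥ - 2 ∑_v badEven (G v) (B v) m`, the sum over all the vertices `v` of the cubical
complex. -/
theorem result (m : ℕ) (P : Type) [Fintype P] [PartialOrder P] (dim : P → ℕ)
    (hP : IsCubical P dim) (nn : P → ℕ) (G : ∀ v : P, SimpleGraph (Fin (nn v)))
    (hL : ∀ v : P, dim v = 0 → IsLink v (flagComplex (G v)))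
    (hS : ∀ v : P, dim v = 0 → HSph (2 * m + 2) (G v))
    (B : ∀ v : P, ℕ → Set (Fin (nn v)))
    (hB : ∀ v : P, dim v = 0 → GoodOutside (G v) (B v) (m + 2)) :
    - (2 * ∑ v ∈ Finset.univ.filter (fun v : P => dim v = 0), badEven (G v) (B v) m) ≤
      (-1) ^ (m + 1) * ((chi P dim : ℤ) : ℚ) := by
  have h2 := chi_eq hP nn (fun v => flagComplex (G v)) hL (fun v _ F hF T hT => by
    have h : (G v).IsClique (F : Set (Fin (nn v))) := by simpa [flagComplex] using hF
    have h' : (G v).IsClique (T : Set (Fin (nn v))) := h.subset (by exact_mod_cast hT)
    simpa [flagComplex] using h')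
  rw [h2, Finset.mul_sum, Finset.mul_sum, ← Finset.sum_neg_distrib]
  refine Finset.sum_le_sum fun v hv => ?_
  have hv' : dim v = 0 := (Finset.mem_filter.mp hv).2
  rw [omega_eq]
  exact charney_davis_bad (G v) m (hS v hv') (B v) (hB v hv')

end Pool.Agent.Results.MP_9d0d86_gt.CubicalBadVertices
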