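import Pool.Agent.V1174.CB.A
import Pool.Agent.TH652.Dual7

/-!
# The Singer-Hopf inequality for cubical manifolds whose vertex links are glued

The vertex links of a nonpositively curved cubical manifold of dimension `2 m` are flag homology
spheres `S` of dimension `2 m - 1`. Here a vertex link is admitted in the following cases.

* Each join factor `C` of `S` has odd rank, or is a polygon, or has few vertices, or the flag complex on
  `C` is in the class `Cls` of the starting result `MP_19e880_co.GluingAndContraction`: the least class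
  that contains the flag Eulerian complexes of rank at most three and those of rank four with
  `f₁ - 5 f₀ + 16 ≥ 0`, and is closed under links, joins, edge subdivisions, inverse edge contractions,
  gluing along induced equators, and passing from the vertex links to the complex under a condition.
* `Tetra`: the criterion of the starting result `MP_19e880_co.FarTetrahedra`; for `m = 3` it asks for one
  vertex of the link from which no tetrahedron is far (and for the inequality of Davis and Okun for the
  links of the edges).
* The links of the faces of even size have nice vertices (as in the starting result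
  `CubicalManifolds`).
* `S` is the complex of the cliques of a graph in the class `AQ` of the starting results
  `MP_f80465_gt.ReflectionManifolds` and `MP_984acc_gt.ReflectionGroups`. It contains the order
  complexes of the graded posets which are Gorenstein* over `F_2` (barycentric subdivisions of
  triangulated spheres, for instance) and is closed under several operations.

Different vertices may be in different cases.
-/

set_option autoImplicit false

namespace Pool.Agent.Results.MP_9d0d86_gt.CubicalGluing

open Pool.Agent.W497.FS Pool.Agent.W497.CC Pool.Agent.TH709.GG Pool.Agent.TH652.Above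
  Pool.Agent.W907.SG

/-- the flag sphere `S` of dimension `2 m - 1` has a join factor of odd rank, or every join factor
`C`, of rank `e`, has `e ≤ 2` or at most `max (2 e + 6) (3 e)` vertices or is in the class `Cls` -/
def GoodFactors (m : ℕ) {n : ℕ} (S : Finset (Finset (Fin n))) : Prop :=
  (∃ C : Finset (Fin n), IsFactor S C ∧ ∃ G ∈ S, G.card = 2 * m ∧ Odd (G ∩ C).card) ∨
    ∀ C : Finset (Fin n), IsFactor S C → (∀ F ∈ S, F ⊆ C → F.card ≤ 2) ∨
      ∃ F ∈ S, F ⊆ C ∧ (C.card ≤ max (2 * F.card + 6) (3 * F.card) ∨
        Cls F.card (Fin n) (skel S) C)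

/-- A set `P` of pairs `(F, T)`, `F` a face and `T` a face of its link, containing `(∅, ∅)`, such
that for each pair there is a vertex `v` of the link of `F` from which no tetrahedron is far, with
the pairs of the recursion in `P`. -/
def Tetra (d : ℕ) {n : ℕ} (S : Finset (Finset (Fin n))) : Prop :=
  (∀ F ∈ S, F.card + 4 = d → 5 * ((link S F).filter (fun G => G.card = 1)).card ≤
    ((link S F).filter (fun G => G.card = 2)).card + 16) ∧
  ∃ P : Finset (Fin n) → Finset (Fin n) → Prop, P ∅ ∅ ∧
    ∀ F ∈ S, ∀ T ∈ link S F, P F T → F.card + 5 ≤ d → (T = ∅ → F.card + 6 ≤ d) →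
      ∃ v, insert v T ∈ link S F ∧ (∀ G, IsFar (link S F) v G → G.card ≤ 3) ∧
        (v ∉ T → P (insert v F) T) ∧ ((T = ∅ → F.card + 7 ≠ d) →
        (∀ E, IsFar (link S F) v E → E.card = 2 →
          P (F ∪ E) (T.filter (fun x => insert x (F ∪ E) ∈ S))) ∧
        (∀ R, IsFar (link S F) v R → R.card = 3 → ∀ t ∈ R,
          P (F ∪ R.erase t) (insert t (T.filter (fun x => insert x (F ∪ R) ∈ S)))))

/-- the link of every face `F` of even size `< 2 m` has a vertex `v` such that every 4-element face
of the link contains `v` or a neighbour of `v` -/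
def HasNice (m : ℕ) {n : ℕ} (S : Finset (Finset (Fin n))) : Prop :=
  ∀ F ∈ S, Even F.card → F.card < 2 * m → ∃ v, v ∉ F ∧ insert v F ∈ S ∧
    ∀ G ∈ S, G.card = 4 → Disjoint G F → G ∪ F ∈ S → ∃ g ∈ G, ({v, g} : Finset (Fin n)) ∈ S

/-- `S` is a flag homology sphere over `k` of dimension `2 m - 1` in one of the first three cases, or
the complex of the cliques of a graph in the class `AQ`, and a real homology sphere -/
def Admitted (k : Type) [Field k] (m : ℕ) {n : ℕ} (S : Finset (Finset (Fin n))) : Prop :=
  (IsFlagSphere k (2 * m) S ∧ (GoodFactors m S ∨ Tetra (2 * m) S ∨ HasNice m S)) ∨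
    ∃ G : SimpleGraph (Fin n), HSph (2 * m) G ∧ AQ (2 * m) G ∧
      ∀ T : Finset (Fin n), T ∈ S ↔ G.IsClique (T : Set (Fin n))

theorem admitted_closed {k : Type} [Field k] {m n : ℕ} {S : Finset (Finset (Fin n))}
    (h : Admitted k m S) : ∀ F ∈ S, ∀ G : Finset (Fin n), G ⊆ F → G ∈ S := by
  rcases h with ⟨h, -⟩ | ⟨G, -, -, hG⟩
  · obtain ⟨r, hr⟩ := h
    exact hr.1
  · intro F hF T hT
    rw [hG] at hF ⊢
    exact hF.subset (by exact_mod_cast hT)

theorem admitted_sign {k : Type} [Field k] {m n : ℕ} {S : Finset (Finset (Fin n))}
    (h : Admitted k m S) : 0 ≤ (-1) ^ m * omega S := by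
  classical
  rcases h with ⟨hS, (hc | hc) | hc | hc⟩ | ⟨G, h1, h2, hG⟩
  · rw [Y365.FS.cd_odd hS hc, mul_zero]
  · exact Pool.Agent.V1174.CB.cd_factors hS fun C hC => Or.inr (hc C hC)
  · exact Pool.Agent.V1174.CB.cd_tetra hS hc
  · exact cd_four hS hc
  · have h3 := charney_davis_AQ h1 h2
    have h4 : omega S = chiW G := by
      unfold omega chiW
      symm
      refine (Finset.sum_subset (Finset.subset_univ S)
        (fun T _ hT => if_neg (fun h => hT ((hG T).2 h)))).symm.trans ?_
      refine Finset.sum_congr rfl fun T hT => ?_
      rw [if_pos ((hG T).1 hT), div_pow]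
    rwa [h4]

/-- **The Singer-Hopf inequality** for nonpositively curved cubical manifolds of dimension `2 m`
whose vertex links are admitted. -/
theorem result (k : Type) [Field k] (m : ℕ) (P : Type) [Fintype P] [PartialOrder P] (dim : P → ℕ)
    (hP : IsCubical P dim)
    (hL : ∀ v : P, dim v = 0 → ∃ (n : ℕ) (S : Finset (Finset (Fin n))),
      IsLink v S ∧ Admitted k m S) :
    0 ≤ (-1) ^ m * chi P dim := by
  classical
  have h1 : ∀ v : P, ∃ p : Σ n : ℕ, Finset (Finset (Fin n)), dim v = 0 →
      IsLink v p.2 ∧ Admitted k m p.2 := by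
    intro v
    by_cases hv : dim v = 0
    · obtain ⟨n, S, h⟩ := hL v hv
      exact ⟨⟨n, S⟩, fun _ => h⟩
    · exact ⟨⟨0, ∅⟩, fun h => absurd h hv⟩
  choose p hp using h1
  have h2 := chi_eq hP (fun v => (p v).1) (fun v => (p v).2) (fun v hv => (hp v hv).1)
    (fun v hv => admitted_closed (hp v hv).2)
  have h3 : (0 : ℚ) ≤ (-1) ^ m * ((chi P dim : ℤ) : ℚ) := by
    rw [h2, Finset.mul_sum]
    exact Finset.sum_nonneg fun v hv => admitted_sign (hp v (Finset.mem_filter.mp hv).2).2
  exact_mod_cast h3

end Pool.Agent.Results.MP_9d0d86_gt.CubicalGluing
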