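import Pool.Agent.TH570.Hopf.Scal

/-!
# The Singer-Hopf sign in dimension six: nonpositive curvature, a sharp linear bound, and Ricci pinching

Let `kap6 = 15 / (8 π³)` be the Gauss-Bonnet-Chern integrand of constant curvature one in dimension six.

* If all sectional curvatures at a point lie in `[-c, 0]`, the Gauss-Bonnet-Chern integrand is at most
  `kap6 · c² (scal / 10 + 2 c)`. So a closed Riemannian six-manifold with `-c ≤ K ≤ 0` (it is aspherical by the
  theorem of Cartan and Hadamard) whose scalar curvature is at most `-20 c` in the mean over the manifold has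
  Euler characteristic `≤ 0`, and `< 0` if the mean is less than `-20 c`. The bound is attained for every value of
  the scalar curvature between `-30 c` (constant curvature) and `-20 c` (hyperbolic five-space times a line).
* If all sectional curvatures are at most `-c < 0` and all Ricci curvatures are at least `-14 c` (for constant
  curvature `-c` they are `-5 c`; there is no other lower bound of the sectional curvatures), the integrand is at
  most its value `- kap6 · c³` for constant curvature `-c`. So a closed Riemannian six-manifold with this property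
  at each point (`c` may depend on the point) has negative Euler characteristic.

The two pointwise bounds are theorems of the starting library (`Pool/Agent/TH570/Hopf/Final.lean`,
`mean_bound_neg` and `ric_bound_neg`), which uses only their mirror images for positive curvature
(`MP_4a593f_gt`).
-/

set_option autoImplicit false

namespace Pool.Agent.Results.MP_9d0d86_gt.NonpositiveMeanRicci

open Hopf6 MeasureTheory Pool.Agent.TH570.Hopf

/-- **The Singer-Hopf sign in dimension six.**
(1) The pointwise bound for `-c ≤ K ≤ 0`.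
(2) The integrated bound for a field of curvature tensors with `-c ≤ K ≤ 0`, where `c` may depend on the point.
(3) For constant `c`, the sign follows from the mean of the scalar curvature over `M`.
(4) Sharpness: the bound is attained for every value of the scalar curvature in `[-30 c, -20 c]`.
(5) The pointwise bound for `K ≤ -c ≤ 0` and `Ric ≥ -14 c`.
(6) The integrated bound for `K ≤ -c < 0` and `Ric ≥ -14 c`, where `c` may depend on the point. -/
theorem result :
    (∀ (V : Type) [NormedAddCommGroup V] [InnerProductSpace ℝ V]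
      (e : OrthonormalBasis (Fin 6) ℝ V) (R : V → V → V → V → ℝ), AlgCurv R →
      ∀ c : ℝ, 0 ≤ c → Hopf6.SecIn R (-c) 0 →
        Hopf6.gbc e R ≤ kap6 * (c ^ 2 * (scalar e R / 10 + 2 * c))) ∧
    (∀ (M : Type) [MeasurableSpace M] (μ : Measure M) (K : CurvField M) (c : M → ℝ),
      (∀ p, 0 ≤ c p ∧ K.SecIn p (-(c p)) 0) → Integrable K.gbc μ →
      Integrable (fun p => c p ^ 2 * (K.scal p / 10 + 2 * c p)) μ →
        ∫ p, K.gbc p ∂μ ≤ kap6 * ∫ p, c p ^ 2 * (K.scal p / 10 + 2 * c p) ∂μ) ∧
    (∀ (M : Type) [MeasurableSpace M] (μ : Measure M) [IsFiniteMeasure μ] (K : CurvField M)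
      (c : ℝ), 0 < c → (∀ p, K.SecIn p (-c) 0) → Integrable K.gbc μ → Integrable K.scal μ →
        (∫ p, K.scal p ∂μ ≤ -(20 * c * μ.real Set.univ) → ∫ p, K.gbc p ∂μ ≤ 0) ∧
        (∫ p, K.scal p ∂μ < -(20 * c * μ.real Set.univ) → ∫ p, K.gbc p ∂μ < 0)) ∧
    (∀ c t : ℝ, 0 ≤ c → 0 ≤ t → t ≤ 1 → ∃ R : E6 → E6 → E6 → E6 → ℝ, AlgCurv R ∧
      Hopf6.SecIn R (-c) 0 ∧
      scalar (EuclideanSpace.basisFun (Fin 6) ℝ) R = -((30 - 10 * t) * c) ∧
      Hopf6.gbc (EuclideanSpace.basisFun (Fin 6) ℝ) R =
        kap6 * (c ^ 2 * (scalar (EuclideanSpace.basisFun (Fin 6) ℝ) R / 10 + 2 * c))) ∧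
    (∀ (V : Type) [NormedAddCommGroup V] [InnerProductSpace ℝ V]
      (e : OrthonormalBasis (Fin 6) ℝ V) (R : V → V → V → V → ℝ), AlgCurv R →
      ∀ c : ℝ, 0 ≤ c → SecLe R (-c) → (∀ x : V, ‖x‖ = 1 → -(14 * c) ≤ ric e R x) →
        Hopf6.gbc e R ≤ kap6 * (c ^ 2 * (scalar e R / 10 + 2 * c)) ∧
        kap6 * (c ^ 2 * (scalar e R / 10 + 2 * c)) ≤ -(kap6 * c ^ 3)) ∧
    (∀ (M : Type) [MeasurableSpace M] (μ : Measure M) (K : CurvField M) (c : M → ℝ), μ ≠ 0 →
      (∀ p, 0 < c p ∧ SecLe (K.R p) (-(c p)) ∧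
        ∀ x : K.V p, ‖x‖ = 1 → -(14 * c p) ≤ ric (K.e p) (K.R p) x) →
      Integrable K.gbc μ →
        ∫ p, K.gbc p ∂μ < 0 ∧
        (Integrable (fun p => c p ^ 3) μ → ∫ p, K.gbc p ∂μ ≤ -(kap6 * ∫ p, c p ^ 3 ∂μ))) := by
  have hP : ∀ (M : Type) [MeasurableSpace M] (μ : Measure M) (K : CurvField M) (c : M → ℝ),
      (∀ p, 0 ≤ c p ∧ K.SecIn p (-(c p)) 0) → Integrable K.gbc μ →
      Integrable (fun p => c p ^ 2 * (K.scal p / 10 + 2 * c p)) μ →
        ∫ p, K.gbc p ∂μ ≤ kap6 * ∫ p, c p ^ 2 * (K.scal p / 10 + 2 * c p) ∂μ := by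
    intro M _ μ K c h h1 h2
    rw [← integral_const_mul]
    exact integral_mono h1 (h2.const_mul _) fun p =>
      mean_bound_neg (K.e p) (K.curv p) (h p).1 (h p).2
  have hpt : ∀ (V : Type) [NormedAddCommGroup V] [InnerProductSpace ℝ V]
      (e : OrthonormalBasis (Fin 6) ℝ V) (R : V → V → V → V → ℝ), AlgCurv R →
      ∀ c : ℝ, 0 ≤ c → SecLe R (-c) → (∀ x : V, ‖x‖ = 1 → -(14 * c) ≤ ric e R x) →
        Hopf6.gbc e R ≤ kap6 * (c ^ 2 * (scalar e R / 10 + 2 * c)) ∧
        kap6 * (c ^ 2 * (scalar e R / 10 + 2 * c)) ≤ -(kap6 * c ^ 3) := by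
    intro V _ _ e R hR c hc h hr
    refine ⟨ric_bound_neg e hR hc h hr, ?_⟩
    have h1 : 30 * c ≤ scalar e (fun x y z w => - R x y z w) :=
      scalar_ge e (neg_curv hR) (fun x y hx hy hxy => by
        have := h x y hx hy hxy
        linarith)
    rw [scalar_neg] at h1
    have hk := kap6_pos.le
    have h2 : c ^ 2 * (scalar e R / 10 + 2 * c) ≤ -(c ^ 3) := by
      have h3 : 0 ≤ c ^ 2 * (-(scalar e R) / 10 - 2 * c - c) :=
        mul_nonneg (by positivity) (by linarith)
      nlinarith
    calc kap6 * (c ^ 2 * (scalar e R / 10 + 2 * c)) ≤ kap6 * (-(c ^ 3)) :=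
          mul_le_mul_of_nonneg_left h2 hk
      _ = -(kap6 * c ^ 3) := by ring
  refine ⟨fun V _ _ e R hR c hc h => mean_bound_neg e hR hc h, hP, ?_, ?_, hpt, ?_⟩
  · intro M _ μ _ K c hc h h1 h2
    have hi : Integrable (fun p => c ^ 2 * (K.scal p / 10 + 2 * c)) μ :=
      ((h2.div_const _).add (integrable_const _)).const_mul _
    have h3 := hP M μ K (fun _ => c) (fun p => ⟨hc.le, h p⟩) h1 hi
    have h4 : ∫ p, c ^ 2 * (K.scal p / 10 + 2 * c) ∂μ =
        c ^ 2 * ((∫ p, K.scal p ∂μ) / 10 + 2 * c * μ.real Set.univ) := by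
      rw [integral_const_mul, integral_add (h2.div_const _) (integrable_const _),
        integral_div, integral_const, smul_eq_mul]
      ring
    simp only [h4] at h3
    have hk := kap6_pos
    have hc2 : 0 < c ^ 2 := by positivity
    refine ⟨fun h5 => le_trans h3 ?_, fun h5 => lt_of_le_of_lt h3 ?_⟩
    · have h6 : (∫ p, K.scal p ∂μ) / 10 + 2 * c * μ.real Set.univ ≤ 0 := by linarith
      exact mul_nonpos_of_nonneg_of_nonpos hk.le (mul_nonpos_of_nonneg_of_nonpos hc2.le h6)
    · have h6 : (∫ p, K.scal p ∂μ) / 10 + 2 * c * μ.real Set.univ < 0 := by linarith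
      exact mul_neg_of_pos_of_neg hk (mul_neg_of_pos_of_neg hc2 h6)
  · intro c t hc h0 h1
    refine ⟨ext6 c t, ext6_curv c t, ext_sec hc h0 h1, scalar_ext c t, ?_⟩
    rw [gbc_ext]
  · intro M _ μ K c hμ h hint
    have hle : ∀ p, K.gbc p ≤ -(kap6 * c p ^ 3) := fun p =>
      have h1 := hpt (K.V p) (K.e p) (K.R p) (K.curv p) (c p) (h p).1.le (h p).2.1 (h p).2.2
      h1.1.trans h1.2
    have hneg : ∀ p, K.gbc p < 0 := fun p =>
      lt_of_le_of_lt (hle p) (neg_lt_zero.2 (mul_pos kap6_pos (pow_pos (h p).1 3)))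
    constructor
    · have hint' : Integrable (fun p => -(K.gbc p)) μ := hint.neg
      have h2 : 0 < ∫ p, -(K.gbc p) ∂μ := by
        rw [integral_pos_iff_support_of_nonneg (fun p => (neg_pos.2 (hneg p)).le) hint']
        have hs : Function.support (fun p => -(K.gbc p)) = Set.univ := by
          ext p
          simp only [Function.mem_support, Set.mem_univ, iff_true]
          exact (neg_pos.2 (hneg p)).ne'
        rw [hs]
        exact Measure.measure_univ_pos.2 hμ
      rw [integral_neg] at h2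
      linarith
    · intro h3
      rw [← integral_const_mul, ← integral_neg]
      exact integral_mono hint (h3.const_mul _).neg fun p => hle p

end Pool.Agent.Results.MP_9d0d86_gt.NonpositiveMeanRicci
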